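import Pool.Agent.L5helper63.Fer.Elem
import Pool.Agent.L5helper63.Sp.FewElem
import Pool.Agent.L5helper47.QuadGen

/-!
# Fermat varieties whose Hodge classes come from standard cycles, surfaces and products of curves

The Hodge classes on the Fermat variety `x_0 ^ m + ... + x_(n+1) ^ m = 0` of even dimension `n` are
spanned, apart from the power of the hyperplane class, by the lines `V(s)` of the Hodge characters
`s` with `N = n + 2` entries (Shioda). The lines of the pairs `{a, -a}`, of unions of algebraic ones
(the inductive structure of Fermat varieties of Shioda and Katsura) and of the standard characters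
(Aoki, Shioda) are algebraic, and removing a pair preserves algebraicity (Shioda).

1. We show that there are no further Hodge classes if the degree has no pair of small prime factors:
   if `4 N < (p - 1) (q - 1)` for any two different prime factors of the odd number `m`, all Hodge
   characters of degree `m` with at most `N` entries are generated by pairs and standard characters.
   For even `m` the bound is `8 N`, for odd primes `p`, `q`, and if `4` divides `m` the odd prime
   factors have to be larger than `4 N + 1`. So it is enough, for odd `m`, that the prime factors are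
   larger than `2 √N + 2`, whereas the earlier results need prime factors larger than about `N`. (As
   soon as `m` has two odd prime factors there are Hodge characters with more entries which are not
   generated by pairs and standard characters, by Kubert and Yamamoto.) This part is proved in the
   library `Pool/Agent/L5helper47`, by helper47.

2. The Hodge characters with four entries are algebraic by the theorem of Lefschetz on `(1, 1)`
   classes. So are the Hodge characters which are the union of two `CurveCharacter`s: each of the two
   has three entries, and lives on a Fermat curve, or has five entries and the Newton simplex of the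
   toric threefold `W_b`, the quotient of the Fermat threefold by the kernel of `b`, has empty Fine
   interior; then `W_b` is uniruled (Ishii, Batyrev, Miyaoka), so that its `H^3` comes from curves
   (Bloch, Srinivas). And `V(s)` is algebraic if the line of `l s` in degree `l m` is: the latter is
   its pull back under the finite map `x_i ↦ x_i ^ l`.

   We show that all Hodge characters of degree `m` with at most `N` entries are, after multiplication
   by some `l`, generated by these if `m < 55` (any `N`), if `N ≤ 6` and `110` does not divide `m`, if
   `N ≤ 9` and `m` is prime to 6, and if `N ≤ 14` and `m` is prime to 30. So the Hodge conjecture for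
   the Fermat varieties of degree `m < 55`, for the Fermat fourfolds of degree not divisible by 110,
   for the Fermat sixfolds of degree prime to 6 and for the Fermat varieties of dimension up to 12 of
   degree prime to 30 follows from the theorem of Lefschetz, without the determinants of the
   cohomology on modular curves used in `FermatVarieties.lean`. (The proof for few entries is by
   sparse even distributions and averaging over the Galois group, see there.)
-/

namespace Pool.Agent.L5helper63.Elementary

open Pool.Agent.H916R2 Pool.Agent.N992 Pool.Agent.N993 Pool.Agent.Y2.Cv Pool.Agent.L5helper63.Fer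
open Pool.Agent.L5helper63.Sp

/-- `4 N gcd(m, 2) < (p - 1) (q - 1)` for any two different odd prime factors of `m`, and the odd prime
factors are larger than `4 N + 1` if `4` divides `m`. -/
def QuadraticBound (m N : ℕ) : Prop :=
  (∀ p q : ℕ, p.Prime → q.Prime → p ∣ m → q ∣ m → p ≠ 2 → q ≠ 2 → p ≠ q →
    4 * N * m.gcd 2 < (p - 1) * (q - 1)) ∧
  (4 ∣ m → ∀ q : ℕ, q.Prime → q ∣ m → q ≠ 2 → 4 * N + 1 < q)

theorem result (m N : ℕ) (hm : 0 < m) :
    (QuadraticBound m N → ∀ s : Multiset (ZMod m), IsHodge m s → s ≠ 0 → Multiset.card s ≤ N →
      Generated m (fun _ => False) s) ∧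
    ((m < 55 ∨ (N ≤ 6 ∧ ¬ 110 ∣ m) ∨ (N ≤ 9 ∧ m.Coprime 6) ∨ (N ≤ 14 ∧ m.Coprime 30)) →
      ∃ l : ℕ, 0 < l ∧ ∀ s : Multiset (ZMod m), IsHodge m s → s ≠ 0 →
        Multiset.card s ≤ N → Generated (l * m) (SurfaceOrCurveProduct (l * m))
          (s.map fun a => ((l * a.val : ℕ) : ZMod (l * m)))) := by
  have hz : NeZero m := ⟨hm.ne'⟩
  have hcount : ∀ s : Multiset (ZMod m), oddResidues s ≤ Multiset.card s := fun s =>
    (Finset.card_filter_le _ _).trans (Multiset.toFinset_card_le s)
  refine ⟨fun h s hs hne hc => ?_, fun h => ?_⟩
  · rcases Nat.even_or_odd m with he | ho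
    · have hg : m.gcd 2 = 2 := Nat.gcd_eq_right he.two_dvd
      refine Pool.Agent.L5helper47.quad_even hm.ne' (fun p q hp hq hpm hqm hpq hp2 hq2 => ?_)
        (fun h4 q hq hqm hq2 => ?_) s hs hc hne
      · have h1 := h.1 p q hp hq hpm hqm hp2 hq2 hpq
        rw [hg] at h1
        calc 8 * N = 4 * N * 2 := by ring
          _ < _ := h1
      · have := h.2 h4 q hq hqm hq2
        omega
    · have hodd : ∀ p : ℕ, p ∣ m → p ≠ 2 := by
        rintro p hpm rfl
        exact (Nat.not_even_iff_odd.mpr ho) (even_iff_two_dvd.mpr hpm)
      have hg : m.gcd 2 = 1 := by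
        rw [Nat.gcd_comm]
        exact Nat.Coprime.gcd_eq_one (Nat.coprime_two_left.mpr ho)
      refine Pool.Agent.L5helper47.quad_odd (Nat.odd_iff.mp ho) (fun p q hp hq hpm hqm hpq => ?_)
        s hs hc hne
      have h1 := h.1 p q hp hq hpm hqm (hodd p hpm) (hodd q hqm) hpq
      rwa [hg, mul_one] at h1
  · have key : ∀ h : FewEntriesElem m N, ∃ l : ℕ, 0 < l ∧ ∀ s : Multiset (ZMod m), IsHodge m s →
        s ≠ 0 → Multiset.card s ≤ N → Generated (l * m) (SurfaceOrCurveProduct (l * m))
          (s.map fun a => ((l * a.val : ℕ) : ZMod (l * m))) := by
      intro h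
      obtain ⟨l, hl, H⟩ := few_elem m N h
      exact ⟨l, Nat.pos_of_ne_zero (left_ne_zero_of_mul hl.out), fun s hs hne hc =>
        H s hs hne ((hcount s).trans hc)⟩
    rcases h with h | h | ⟨hN, h⟩ | ⟨hN, h⟩
    · obtain ⟨l, hl, -, H⟩ := elem m N hm (Or.inl h)
      exact ⟨l, hl, H⟩
    · obtain ⟨l, hl, -, H⟩ := elem m N hm (Or.inr h)
      exact ⟨l, hl, H⟩
    · have h2 : ¬ 2 ∣ m := fun h2 => by
        have := Nat.dvd_gcd h2 (show 2 ∣ 6 by norm_num)
        rw [Nat.Coprime.gcd_eq_one h] at this
        omega
      have h3 : ¬ 3 ∣ m := fun h3 => by
        have := Nat.dvd_gcd h3 (show 3 ∣ 6 by norm_num)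
        rw [Nat.Coprime.gcd_eq_one h] at this
        omega
      refine key ⟨fun h4 => h2 (Dvd.dvd.trans (by norm_num) h4), Or.inl ⟨h3, ?_⟩⟩
      unfold nEff
      rw [if_neg h2]
      omega
    · have h2 : ¬ 2 ∣ m := fun h2 => by
        have := Nat.dvd_gcd h2 (show 2 ∣ 30 by norm_num)
        rw [Nat.Coprime.gcd_eq_one h] at this
        omega
      have h3 : ¬ 3 ∣ m := fun h3 => by
        have := Nat.dvd_gcd h3 (show 3 ∣ 30 by norm_num)
        rw [Nat.Coprime.gcd_eq_one h] at this
        omega
      have h5 : ¬ 5 ∣ m := fun h5 => by
        have := Nat.dvd_gcd h5 (show 5 ∣ 30 by norm_num)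
        rw [Nat.Coprime.gcd_eq_one h] at this
        omega
      refine key ⟨fun h4 => h2 (Dvd.dvd.trans (by norm_num) h4), Or.inr (Or.inl ⟨h3, h5, ?_⟩)⟩
      unfold nEff
      rw [if_neg h2]
      omega

end Pool.Agent.L5helper63.Elementary
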