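import Pool.Agent.L5helper13.TQ.Defs

set_option autoImplicit false

namespace Pool.Agent.L5helper13.TQ

/-- TQ1 -/
theorem exists_mean (k : Type) [Field k] (d : ℕ) :
    ∃ E : ((Fin d → kˣ) → k) →ₗ[k] k, E (fun _ => 1) = 1 ∧
      (∀ f ∈ AA k d, ∀ s, E (fun t => f (t * s)) = E f) ∧
      (∀ f ∈ AA k d, E (fun t => f t⁻¹) = E f) := by
  classical
  have hli : LinearIndependent k (fun f : (Fin d → kˣ) →* k => (f : (Fin d → kˣ) → k)) :=
    linearIndependent_monoidHom (Fin d → kˣ) k
  let b := Module.Basis.span hli
  let E0 := b.constr k (fun χ : (Fin d → kˣ) →* k => if χ = 1 then (1 : k) else 0)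
  obtain ⟨E, hE⟩ := LinearMap.exists_extend E0
  have key : ∀ χ : (Fin d → kˣ) →* k, E (fun t => χ t) = if χ = 1 then (1 : k) else 0 := by
    intro χ
    have h1 : E0 (b χ) = if χ = 1 then (1 : k) else 0 := b.constr_basis k _ χ
    have h2 : ((b χ : Submodule.span k (Set.range
        (fun f : (Fin d → kˣ) →* k => (f : (Fin d → kˣ) → k)))) : (Fin d → kˣ) → k) =
        fun t => χ t := congrArg Subtype.val (Module.Basis.span_apply hli χ)
    rw [← h1, ← hE, ← h2]
    rfl
  refine ⟨E, ?_, ?_, ?_⟩
  · have h := key 1
    simpa using h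
  · intro f hf
    unfold AA at hf
    induction hf using Submodule.span_induction with
    | mem f hf =>
      intro s
      obtain ⟨χ, rfl⟩ := hf
      have h1 : (fun t : Fin d → kˣ => χ (t * s)) = χ s • fun t : Fin d → kˣ => χ t := by
        funext t
        rw [map_mul, Pi.smul_apply, smul_eq_mul, mul_comm]
      show E (fun t => χ (t * s)) = E (fun t => χ t)
      rw [h1, map_smul, key]
      by_cases h : χ = 1
      · subst h
        simp
      · simp [h]
    | zero =>
      intro s
      rfl
    | add f g _ _ hf hg =>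
      intro s
      have h1 : (fun t : Fin d → kˣ => (f + g) (t * s)) =
        (fun t => f (t * s)) + fun t => g (t * s) := rfl
      rw [h1, map_add, map_add, hf s, hg s]
    | smul a f _ hf =>
      intro s
      have h1 : (fun t : Fin d → kˣ => (a • f) (t * s)) = a • fun t => f (t * s) := rfl
      rw [h1, map_smul, map_smul, hf s]
  · intro f hf
    unfold AA at hf
    induction hf using Submodule.span_induction with
    | mem f hf =>
      obtain ⟨χ, rfl⟩ := hf
      have h1 : (fun t : Fin d → kˣ => χ t⁻¹) =
          fun t => (χ.comp (invMonoidHom : (Fin d → kˣ) →* (Fin d → kˣ))) t := rfl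
      show E (fun t => χ t⁻¹) = E (fun t => χ t)
      rw [h1, key, key]
      have h2 : χ.comp (invMonoidHom : (Fin d → kˣ) →* (Fin d → kˣ)) = 1 ↔ χ = 1 := by
        constructor
        · intro h
          refine DFunLike.ext _ _ fun t => ?_
          have h3 := DFunLike.congr_fun h t⁻¹
          simpa using h3
        · rintro rfl
          exact DFunLike.ext _ _ fun t => rfl
      simp only [h2]
    | zero => rfl
    | add f g _ _ hf hg =>
      have h1 : (fun t : Fin d → kˣ => (f + g) t⁻¹) =
        (fun t => f t⁻¹) + fun t => g t⁻¹ := rfl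
      rw [h1, map_add, map_add, hf, hg]
    | smul a f _ hf =>
      have h1 : (fun t : Fin d → kˣ => (a • f) t⁻¹) = a • fun t => f t⁻¹ := rfl
      rw [h1, map_smul, map_smul, hf]

end Pool.Agent.L5helper13.TQ
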